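import Pool.Agent.H.MP_fa5791_lc.A

set_option autoImplicit false

namespace Pool.Agent.Results.MP_a0087d_lc.Yes

open Pool.Agent.Lib.helper21.PR Pool.Agent.H.MP_fa5791_lc Filter Set Submodule Encodable Denumerable
open Nat.Partrec Nat.Partrec.Code

attribute [local irreducible] Primrec Computable

variable {F V : Type} [Field F] [AddCommGroup V] [Module F V] [Primcodable F] [Primcodable V]

/-- computably enumerable sets of vectors -/
def CE (S : Set V) : Prop := REPred (· ∈ S)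

/-- `M` is maximal in `B` -/
def MaxIn (B M : Set V) : Prop := CE M ∧ M ⊆ B ∧ (B \ M).Infinite ∧
  ∀ W, CE W → M ⊆ W → W ⊆ B → (W \ M).Finite ∨ (B \ W).Finite

/-- `A` is an atomless subset of `B` -/
def Atomless (B A : Set V) : Prop := CE A ∧ A ⊆ B ∧ (B \ A).Infinite ∧ ¬ ∃ M, A ⊆ M ∧ MaxIn B M

/-- `M` is a maximal c.e. subspace -/
def MaxSp (M : Submodule F V) : Prop := CE (M : Set V) ∧ ¬ FiniteDimensional F (V ⧸ M) ∧
  ∀ W : Submodule F V, CE (W : Set V) → M ≤ W →
    FiniteDimensional F (W.map M.mkQ) ∨ FiniteDimensional F (V ⧸ W)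

theorem re_span {α : Type} [Primcodable α] (h1 : Computable fun z : V × V => z.1 + z.2)
    (h2 : Computable fun z : F × V => z.1 • z.2) {M : Submodule F V} (h : CE (M : Set V)) {S : α → V → Prop}
    (k : RI O fun z : α × V => S z.1 z.2) :
    RI O fun z : α × V => M.mkQ z.2 ∈ span F (M.mkQ '' {y | S z.1 y}) := by
  have a1 : CI O _ := Computable.ci h1
  have a2 : CI O _ := Computable.ci h2
  have a3 : RI O (· ∈ M) := (i_re (RE.mk h)).un
  refine (RI.un (p := fun z : α × V => ∃ l : List (F × V), (∀ i < l.length, S z.1 (l.getD i (0, 0)).2) ∧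
    Nat.rec (motive := fun _ => V) z.2 (fun i a => a + (l.getD i (0, 0)).1 • (l.getD i (0, 0)).2) l.length ∈ M)
    (by fun_prop)).of_eq fun z => ?_
  have e : ∀ (l : List (F × V)) n, Nat.rec (motive := fun _ => V) z.2 (fun i a => a + (l.getD i (0, 0)).1 •
      (l.getD i (0, 0)).2) n = z.2 + ∑ i ∈ Finset.range n, (l.getD i (0, 0)).1 • (l.getD i (0, 0)).2 :=
    fun l n => by induction n <;> simp_all [Finset.sum_range_succ, add_assoc]
  simp only [e, ← Quotient.mk_eq_zero M, ← mkQ_apply, map_add, map_sum, map_smul, add_eq_zero_iff_eq_neg]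
  refine ⟨fun ⟨l, a, b⟩ => b ▸ neg_mem (sum_mem fun i hi => smul_mem _ _ (subset_span
    (mem_image_of_mem _ (a i (Finset.mem_range.1 hi))))), fun a => ?_⟩
  obtain ⟨n, f, g, a⟩ := mem_span_set'.1 a
  choose y b c using fun i => (g i).2
  exact ⟨List.ofFn fun i => (-f i, y i), fun i hi => by simpa [hi, List.length_ofFn ▸ hi] using b _,
    by simpa [Finset.sum_range, ← c] using a.symm⟩

theorem stab {u : ℕ → ℕ} (h : Monotone u) {b : ℕ} (k : ∀ t, u t < b) :
    ∃ a, (∀ᶠ t in atTop, u t = a) ∧ ∀ t, u t ≤ a := by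
  have c : BddAbove (range u) := ⟨b, forall_mem_range.2 fun t => (k t).le⟩
  obtain ⟨s, e⟩ := Nat.sSup_mem (range_nonempty u) c
  have : ∀ t, u t ≤ u s := fun t => e ▸ le_csSup c ⟨t, rfl⟩
  exact ⟨u s, (eventually_ge_atTop s).mono fun t a => (this t).antisymm (h a), this⟩

open Classical in
theorem run {P : V × List V → Prop} (hP : RI O P) :
    ∃ (al : ℕ → V → Bool) (cut : ℕ → V → ℕ) (v : ℕ → V → ℕ → ℕ) (ac : ℕ → Prop) (x : ℕ → V) (L : ℕ → List V),
      Primrec (fun z : ℕ × V => al z.1 z.2) ∧ Primrec (fun z : ℕ × V => cut z.1 z.2) ∧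
      Primrec (fun z : ℕ × V × ℕ => v z.1 z.2.1 z.2.2) ∧ (∀ y, al 0 y ∧ cut 0 y = encode y) ∧
      (∀ s y, (al (s + 1) y ↔ al s y ∧ ¬ (ac s ∧ y = x s)) ∧ cut (s + 1) y =
        if ac s ∧ y ∈ L s then min (cut s (x s)) (cut s y) else cut s y) ∧ (∀ s y, v s y 0 = 0) ∧
      (∀ s y e, v s y (e + 1) = 3 * v s y e + if cut s y ≤ e then 2 else
        if (evaln s (ofNat Code e) (encode y)).isSome then 1 else 0) ∧
      (∀ s, ac s → P (x s, L s) ∧ al s (x s) ∧ x s ∉ L s ∧
        ∀ y ∈ L s, al s y ∧ ∀ n < cut s (x s) + 2, v s (x s) n ≤ v s y n) ∧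
      ∀ a l, P (a, l) → a ∉ l → ∃ᶠ s in atTop, x s = a ∧
        (al s a → (∀ y ∈ l, al s y ∧ ∀ n < cut s a + 2, v s a n ≤ v s y n) → ac s) := by
  obtain ⟨N, n1, n2, n3, n4⟩ := re_bool (r_pw (ri_re hP)).re
  obtain ⟨cf, c1, c2⟩ : ∃ cf : List (V × ℕ) → V → ℕ, Primrec (fun z : List (V × ℕ) × V => cf z.1 z.2) ∧
      ∀ U y, cf U y = U.foldr (fun z c => if z.1 = y then min z.2 c else c) (encode y) :=
    ⟨_, by fun_prop, fun _ _ => rfl⟩
  have c3 : ∀ (l : List V) m U y, cf (l.map (·, m) ++ U) y = if y ∈ l then min m (cf U y) else cf U y :=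
    fun l m U y => by
      induction l with
      | nil => simp
      | cons a l ih =>
        rw [c2] at ih ⊢
        simp only [List.map_cons, List.cons_append, List.foldr_cons, ih, List.mem_cons, eq_comm (a := y)]
        split_ifs <;> simp_all
  obtain ⟨w, w1, w2⟩ : ∃ w : ℕ → List (V × ℕ) → V → ℕ → ℕ, Primrec (fun z : ℕ × List (V × ℕ) × V × ℕ =>
      w z.1 z.2.1 z.2.2.1 z.2.2.2) ∧ ∀ s U y n, w s U y n = Nat.rec 0 (fun e a => 3 * a + if cf U y ≤ e then 2 else
        if (evaln s (ofNat Code e) (encode y)).isSome then 1 else 0) n := ⟨_, by fun_prop, fun _ _ _ _ => rfl⟩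
  obtain ⟨g, g1, g2⟩ : ∃ g : ℕ → V × List V, Primrec g ∧ ∀ s, g s = (decode s.unpair.1).getD (0, []) :=
    ⟨_, by fun_prop, fun _ => rfl⟩
  obtain ⟨Va, v1, v2⟩ : ∃ Va : ℕ → List V × List (V × ℕ) → Bool, Primrec (fun z : ℕ × List V × List (V × ℕ) =>
      Va z.1 z.2) ∧ ∀ s d, Va s d ↔ N (g s) s = true ∧ (g s).1 ∉ d.1 ∧ (g s).1 ∉ (g s).2 ∧
        ∀ y ∈ (g s).2, y ∉ d.1 ∧ ∀ n < cf d.2 (g s).1 + 2, w s d.2 (g s).1 n ≤ w s d.2 y n :=
    ⟨fun _ _ => cd _, by fun_prop, fun _ _ => cd_true⟩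
  obtain ⟨st, s1, s2, s3⟩ : ∃ st : ℕ → List V × List (V × ℕ), Primrec st ∧ st 0 = ([], []) ∧ ∀ s, st (s + 1) =
      if Va s (st s) then ((g s).1 :: (st s).1, (g s).2.map (·, cf (st s).2 (g s).1) ++ (st s).2) else st s :=
    ⟨fun s => Nat.rec ([], []) (fun s d => if Va s d then ((g s).1 :: d.1,
      (g s).2.map (·, cf d.2 (g s).1) ++ d.2) else d) s, by fun_prop, rfl, fun _ => rfl⟩
  refine ⟨fun s y => cd (y ∉ (st s).1), fun s => cf (st s).2, fun s => w s (st s).2, fun s => Va s (st s),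
    fun s => (g s).1, fun s => (g s).2, by fun_prop, by fun_prop, by fun_prop, by simp [s2, c2], fun s y => ?_,
    by simp [w2], by simp [w2], fun s h => by simpa using ((v2 _ _).1 h).imp_left (n2 _ _), fun a l h k => ?_⟩
  · beta_reduce
    rw [s3]
    by_cases h : Va s (st s) <;> simp [h, c3, and_comm]
  · obtain ⟨t, ht⟩ := n4 _ h
    refine frequently_atTop.2 fun u => ⟨Nat.pair (encode (a, l)) (max t u), (le_max_right _ _).trans
      (Nat.right_le_pair _ _), ?_⟩
    simp only [v2, g2, Nat.unpair_pair, encodek, Option.getD_some, true_and, cd_true]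
    exact fun a1 a2 => ⟨n3 _ _ _ ((le_max_left _ _).trans (Nat.right_le_pair _ _)) ht, a1, k, a2⟩

omit [Primcodable F] in
theorem lin {ι U : Type} [AddCommGroup U] [Module F U] {q : ι → U} {C D : Set ι} (h : LinearIndepOn F q C)
    (k : D ⊆ C) : (FiniteDimensional F (span F (q '' D)) → D.Finite) ∧
      (FiniteDimensional F (U ⧸ span F (q '' D)) → (C \ D).Finite) :=
  ⟨fun _ => (LinearIndependent.of_comp (v := fun x : D => (⟨q x, subset_span ⟨x, x.2, rfl⟩⟩ : span F (q '' D)))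
    (span F (q '' D)).subtype (h.mono k)).finite_of_isNoetherian, fun _ => ((linearIndepOn_union_iff_quotient
      disjoint_sdiff_right).1 ((union_diff_cancel k).symm ▸ h)).2.finite_of_isNoetherian⟩

omit [Primcodable F] in
theorem sm {ι U : Type} [AddCommGroup U] [Module F U] {q : ι → U} {S T : Set ι} {u : U}
    (h : u ∈ span F (q '' S)) (k : ∀ y ∈ S, y ∈ T) : u ∈ span F (q '' T) := span_mono (image_mono k) h

theorem result (h1 : Computable fun z : V × V => z.1 + z.2) (h2 : Computable fun z : F × V => z.1 • z.2)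
    {B A : Set V} (hB : CE B) (hS : span F B = ⊤) (hA : Atomless B A) :
    ¬ ∃ M : Submodule F V, MaxSp M ∧ span F A ≤ M := by
  classical
  rintro ⟨M, ⟨m1, m2, m3⟩, hM⟩
  obtain ⟨β, b, b'⟩ : ∃ β : V → Prop, RI O β ∧ ∀ y, y ∈ B ↔ β y := ⟨_, (i_re (RE.mk hB)).un, fun _ => .rfl⟩
  have p0 := re_span h1 h2 m1 (S := fun (l : List V) y => y ∈ l ∧ β y) (RI.un (by fun_prop))
  obtain ⟨al, cut, v, ac, x, L, r1, r2, r3, r4, r5, r6, r7, r8, r9⟩ :=
    run (i_comp (f := fun z : V × List V => (z.2, z.1)) p0 (by fun_prop))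
  have a1 : ∀ y s t, s ≤ t → al t y → al s y := fun y s t h => by
    induction h with
    | refl => exact id
    | step _ ih => exact fun h => ih ((r5 _ y).1.1 h).1
  have a2 : ∀ y, Antitone (cut · y) := fun y => antitone_nat_of_succ_le fun s => by
    rw [(r5 s y).2]
    split_ifs
    exacts [min_le_right _ _, le_rfl]
  have a0 : ∀ {s t e n}, s ≤ t → (evaln s e n).isSome → (evaln t e n).isSome := fun h k =>
    (Option.isSome_iff_exists.1 k).elim fun _ k => Option.isSome_iff_exists.2 ⟨_, evaln_mono h k⟩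
  have a3 : ∀ y n, Monotone (v · y n) := fun y n s t h => by
    induction n with
    | zero => simp [r6]
    | succ n ih =>
      have := a2 y h
      have := a0 (e := ofNat Code n) (n := encode y) h
      simp only [r7] at *
      split_ifs <;> first | omega | tauto
  have a4 : ∀ s y n, v s y n < 3 ^ n := fun s y n => by
    induction n with
    | zero => simp [r6]
    | succ n ih => rw [r7]; split_ifs <;> omega
  have a5 : ∀ s y z n m, n ≤ m → v s y n < v s z n → v s y m < v s z m := fun s y z n m h k => by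
    induction h with
    | refl => exact k
    | step _ ih => rw [r7, r7]; split_ifs <;> omega
  have a6 : InjOn x {s | ac s} := fun s hs t ht e => by
    have : ∀ s t, ac s → ac t → x s = x t → ¬ s < t := fun s t hs ht e h =>
      ((r5 s _).1.1 (a1 _ _ _ h (r8 t ht).2.1)).2 ⟨hs, e.symm⟩
    exact (not_lt.1 (this _ _ ht hs e.symm)).antisymm (not_lt.1 (this _ _ hs ht e))
  have a7 : ∀ m θ, {y | ∃ s, cut s y ≤ m ∧ v s y m < θ}.Finite := fun m θ => by
    induction θ with
    | zero => simp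
    | succ θ ih =>
      refine (((finite_le_nat m).preimage encode_injective.injOn).union ((ih.of_injOn (s := {s | ac s ∧
        cut s (x s) ≤ m ∧ v s (x s) m < θ}) (f := x) (fun s h => by exact ⟨s, h.2⟩) (a6.mono fun _ h => h.1)).biUnion
          fun s _ => (L s).finite_toSet)).subset fun y ⟨s, h, k⟩ => ?_
      induction s with
      | zero => exact .inl ((r4 y).2.ge.trans h)
      | succ s ih =>
        have c := (a3 y m s.le_succ).trans_lt k
        by_cases e : cut s y ≤ m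
        · exact ih e c
        rw [(r5 s y).2] at h
        split_ifs at h with d
        · have f := ((r8 s d.1).2.2.2 y d.2).2 (cut s (x s) + 1) (by omega)
          rw [r7, r7, if_pos le_rfl, if_neg (by omega)] at f
          have := a5 s (x s) y (cut s (x s)) m (by omega) (by split_ifs at f <;> omega)
          exact .inr (mem_biUnion (show ac s ∧ _ from ⟨d.1, by omega, by dsimp only at c; omega⟩) d.2)
        · exact (e h).elim
  have a8 : ∀ m, {y | ∃ s, cut s y ≤ m}.Finite := fun m => (a7 m _).subset fun y ⟨s, h⟩ => ⟨s, h, a4 _ _ _⟩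
  obtain ⟨C, hC⟩ : ∃ C : Set V, ∀ z, z ∈ C ↔ β z ∧ ∀ t, al t z := ⟨{z | _}, fun _ => .rfl⟩
  have key : ∀ H : ℕ → V → Prop, (∀ s y, H s y → H (s + 1) y) → (∀ s, ac s → H s (x s) → ∀ y ∈ L s,
      H (s + 1) y) → ∀ s y, β y → al s y → H s y → M.mkQ y ∈ span F (M.mkQ '' {z ∈ C | ∃ t, H t z}) :=
    fun H k1 k2 s y y1 y2 y3 => by
      have c : Monotone fun t => span F (M.mkQ '' {z | (β z ∧ al t z) ∧ H t z ∧ cut t z ≤ cut s y}) :=
        monotone_nat_of_le_succ fun t => span_le.2 <| forall_mem_image.2 fun z ⟨z1, z2, z3⟩ => by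
          by_cases e : ac t ∧ z = x t
          · obtain ⟨e, rfl⟩ := e
            obtain ⟨c1, -, c3, c4⟩ := r8 t e
            exact sm c1 fun w ⟨w1, w2⟩ => ⟨⟨w2, (r5 t w).1.2 ⟨(c4 w w1).1, fun h =>
              c3 (h.2 ▸ w1)⟩⟩, k2 t e z2 w w1, by rw [(r5 t w).2, if_pos ⟨e, w1⟩]; omega⟩
          · exact subset_span ⟨z, ⟨⟨z1.1, (r5 t z).1.2 ⟨z1.2, e⟩⟩, k1 _ _ z2, (a2 z t.le_succ).trans z3⟩, rfl⟩
      obtain ⟨t, t1, t2⟩ := ((eventually_ge_atTop s).and ((eventually_all_finite (a8 (cut s y))).2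
        fun z _ => show ∀ᶠ t in atTop, al t z → ∀ u, al u z from by
          by_cases e : ∀ u, al u z
          · exact .of_forall fun _ _ => e
          · obtain ⟨u, e⟩ := not_forall.1 e
            exact (eventually_ge_atTop u).mono fun t h k => (e (a1 _ _ _ h k)).elim)).exists
      exact sm (c t1 (subset_span ⟨y, ⟨⟨y1, y2⟩, y3, le_rfl⟩, rfl⟩))
        fun z ⟨z1, z2, z3⟩ => ⟨(hC z).2 ⟨z1.1, t2 z ⟨t, z3⟩ z1.2⟩, t, z2⟩
  choose f f1 f2 using fun y n => stab (a3 y n) fun t => a4 t y n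
  have ind : LinearIndepOn F M.mkQ C := linearIndepOn_of_finite C fun T hT hf => by
    obtain ⟨N, hN⟩ := (hf.image encode).bddAbove
    lift T to Finset V using hf
    suffices ∀ S : Finset V, S ⊆ T → LinearIndepOn F M.mkQ S from this T subset_rfl
    intro S
    induction S using Finset.induction_on_min_value (f · (N + 2)) with
    | empty => simp
    | insert a S ha hm ih =>
      intro hs
      have c := fun y (h : y ∈ S) => (hC y).1 (hT (hs (Finset.mem_insert_of_mem h)))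
      have d := hs (Finset.mem_insert_self _ _)
      rw [Finset.coe_insert, linearIndepOn_insert (mt Finset.mem_coe.1 ha)]
      refine ⟨ih ((Finset.subset_insert _ _).trans hs), fun h => ?_⟩
      obtain ⟨s, ⟨e1, e2⟩, e3, e4⟩ := ((r9 a S.toList (sm h fun y hy =>
        ⟨Finset.mem_toList.2 hy, (c y hy).1⟩) (mt Finset.mem_toList.1 ha)).and_eventually ((f1 a (N + 2)).and
          ((eventually_all_finset S).2 fun y _ => f1 y (N + 2)))).exists
      have := hN ⟨a, d, rfl⟩
      have : cut s a ≤ _ := (a2 a s.zero_le).trans_eq (r4 a).2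
      exact ((r5 s a).1.1 (((hC a).1 (hT d)).2 _)).2 ⟨e2 (((hC a).1 (hT d)).2 _) fun y hy =>
        ⟨(c y (Finset.mem_toList.1 hy)).2 s, fun n hn => not_lt.1 fun k => (a5 _ _ _ _ (N + 2) (by omega)
          k).not_ge (by rw [e3, e4 y (Finset.mem_toList.1 hy)]; exact hm y (Finset.mem_toList.1 hy))⟩, e1.symm⟩
  have inf : C.Infinite := fun h => m2 <| by
    have : span F (M.mkQ '' C) = ⊤ := by
      rw [eq_top_iff, ← M.range_mkQ, ← Submodule.map_top, ← hS, ← span_image, span_le]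
      exact forall_mem_image.2 fun y hy => by
        simpa using key (fun _ _ => True) (by simp) (by simp) 0 y ((b' y).1 hy) (r4 y).1 trivial
    exact ⟨this ▸ fg_span (h.image _)⟩
  have coh : ∀ e θ, {z ∈ C | θ ≤ f z e}.Infinite → {z ∈ C | f z e < θ}.Finite := fun e θ h => by
    have k := key (fun s y => cut s y < e ∨ θ ≤ v s y e) (fun s y h => h.imp (a2 y s.le_succ).trans_lt
      (·.trans (a3 y e s.le_succ))) fun s h k y hy => by
        have := ((r8 s h).2.2.2 y hy).2 e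
        have : v s y e ≤ v (s + 1) y e := a3 y e s.le_succ
        rw [(r5 s y).2, if_pos ⟨h, hy⟩]
        omega
    obtain ⟨l1, l2⟩ := lin ind (sep_subset C fun z => ∃ t, cut t z < e ∨ θ ≤ v t z e)
    have c : span F (M.mkQ '' {y | β y ∧ ∃ s, al s y ∧ (cut s y < e ∨ θ ≤ v s y e)}) =
        span F (M.mkQ '' {z ∈ C | ∃ t, cut t z < e ∨ θ ≤ v t z e}) :=
      le_antisymm (span_le.2 <| forall_mem_image.2 fun y ⟨y1, s, y2, y3⟩ => k s y y1 y2 y3)
        fun _ h => sm h fun y ⟨y1, s, y2⟩ => ⟨((hC y).1 y1).1, s, ((hC y).1 y1).2 s, y2⟩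
    have d := i_comp (f := fun y : V => ((), y)) (re_span h1 h2 m1 (S := fun (_ : Unit) y => β y ∧
      ∃ s, al s y ∧ (cut s y < e ∨ θ ≤ v s y e)) (RI.un (by fun_prop))) (by fun_prop)
    simp only [c] at d
    have g := map_comap_eq_of_surjective M.mkQ_surjective (span F (M.mkQ '' {z ∈ C | ∃ t, cut t z < e ∨
      θ ≤ v t z e}))
    rcases m3 (comap M.mkQ (span F (M.mkQ '' {z ∈ C | ∃ t, cut t z < e ∨ θ ≤ v t z e}))) (r_pw (ri_re d)).re
      (le_comap_mkQ _ _) with m | m
    · exact (h ((l1 (g ▸ m)).subset fun z ⟨z1, z2⟩ => ⟨z1, (f1 z e).exists.imp fun t h => .inr (z2.trans h.ge)⟩)).elim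
    · exact (l2 (g ▸ (quotientQuotientEquivQuotient M _ (le_comap_mkQ _ _)).symm.finiteDimensional)).union
        (a8 e) |>.subset fun z ⟨z1, z2⟩ => or_iff_not_imp_left.2 fun k => by
          obtain ⟨-, t, k | k⟩ := not_not.1 (not_and.1 k z1)
          exacts [⟨t, k.le⟩, (z2.not_ge (k.trans (f2 z e t))).elim]
  have eC : B \ {y | β y ∧ ∃ t, al t y = false} = C := by
    ext y
    simp +contextual [hC, b']
  refine hA.2.2.2 ⟨{y | β y ∧ ∃ t, al t y = false}, fun a ha => by_contra fun h => ind.ne_zero (eC ▸ ⟨hA.2.1 ha,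
    h⟩ : a ∈ C) ((Quotient.mk_eq_zero M).2 (hM (subset_span ha))), (r_pw (ri_re (RI.un (p := fun y => β y ∧
      ∃ t, al t y = false) (by fun_prop)))).re, fun y h => (b' y).2 h.1, eC ▸ inf, fun W w1 w2 w3 => ?_⟩
  obtain ⟨c, hc⟩ := re_code w1
  have ex : ∃ θ, {z ∈ C | θ ≤ f z (encode c + 1)}.Finite := ⟨3 ^ (encode c + 1), finite_empty.subset
    fun z h => (f1 z (encode c + 1)).exists.elim fun t k => (k ▸ a4 t z _).not_ge h.2⟩
  obtain ⟨θ, e⟩ := Nat.exists_eq_succ_of_ne_zero (n := Nat.find ex) fun h => inf (by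
    simpa [h] using Nat.find_spec ex)
  have k := ((coh _ θ (Nat.find_min ex (by omega))).union (Nat.find_spec ex)).union (a8 (encode c))
  have g : ∀ z ∈ C, (¬ ∃ s, cut s z ≤ encode c) → (z ∈ W ↔ f z (encode c + 1) % 3 = 1) := fun z _ h => by
    have : ∀ᶠ t in atTop, z ∈ W ↔ (evaln t c (encode z)).isSome := by
      by_cases w : z ∈ W
      · obtain ⟨t, k⟩ := evaln_complete.1 (Part.get_mem ((hc z).1 w))
        exact (eventually_ge_atTop t).mono fun u h => iff_of_true w (a0 h (Option.isSome_iff_exists.2 ⟨_, k⟩))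
      · exact .of_forall fun t => iff_of_false w fun k => (Option.isSome_iff_exists.1 k).elim fun _ k =>
          w ((hc z).2 (Part.dom_iff_mem.2 ⟨_, evaln_sound k⟩))
    obtain ⟨t, t1, t2⟩ := (this.and (f1 z (encode c + 1))).exists
    rw [t1, ← t2, r7, if_neg fun k => h ⟨t, k⟩, ofNat_encode]
    split_ifs with d <;> simp [d]
  have j : ∀ z ∈ C, (z ∈ W ↔ θ % 3 = 1) ∨ z ∈ _ := fun z h => or_iff_not_imp_right.2 fun (d : z ∉ k.toFinset) => by
    simp only [Finite.mem_toFinset, mem_union, mem_setOf, h, true_and, not_or, e] at d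
    rw [g z h d.2, show f z (encode c + 1) = θ by omega]
  by_cases d : θ % 3 = 1
  · exact .inr (k.toFinset.finite_toSet.subset fun z h => (j z (eC ▸ ⟨h.1, fun a => h.2 (w2 a)⟩)).resolve_left
      fun a => h.2 (a.2 d))
  · exact .inl (k.toFinset.finite_toSet.subset fun z h => (j z (eC ▸ ⟨w3 h.1, h.2⟩)).resolve_left
      fun a => d (a.1 h.1))

end Pool.Agent.Results.MP_a0087d_lc.Yes
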